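import Pool.Agent.X54.Osc

namespace Pool.Agent.Results.MP_414122_co.BelowSilver

open Pool.Agent.X54.Osc Filter Topology

/-- There is a sum closed permutation class with exponentially many indecomposables whose growth
rate (an honest limit) is at most `12/5`, hence smaller than `1 + √2`. -/
theorem result : ∃ C : ∀ n, Set (Equiv.Perm (Fin n)), IsClass C ∧ SumClosed C ∧
    1 < upperGr (ind C) ∧
    ∃ g : ℝ, Tendsto (fun n : ℕ => ((C n).ncard : ℝ) ^ (1 / (n : ℝ))) atTop (𝓝 g) ∧
      g ≤ 12 / 5 ∧ g < 1 + Real.sqrt 2 := by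
  obtain ⟨g, hg, ht⟩ := growth_C
  refine ⟨C, isClass_C, sumClosed_C, lower_ind, g, ht, hg, ?_⟩
  have h2 : (1.41 : ℝ) < Real.sqrt 2 := by
    rw [Real.lt_sqrt (by norm_num)]
    norm_num
  linarith

end Pool.Agent.Results.MP_414122_co.BelowSilver
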